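import Pool.Agent.TKS.Main

/-!
# Turán's (3,5) problem: an upper bound for the Turán density below the best known one
-/

namespace Pool.Agent.Results.MP_555f9b_co.DensityBound

open Finset Filter Topology

/-- `f(n,3,5)`: the least `m` such that every 3-graph on `n` vertices with `m` edges contains a complete 3-graph on five
vertices. -/
noncomputable def f (n : ℕ) : ℕ :=
  sInf {m : ℕ | ∀ H : Finset (Finset (Fin n)), (∀ e ∈ H, e.card = 3) → H.card = m →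
    ∃ S : Finset (Fin n), S.card = 5 ∧ powersetCard 3 S ⊆ H}

theorem f_le (n : ℕ) : (f n : ℝ) ≤ 0.3811 * (n * (n + 1) * (2 * n + 1) / 6) + 1 := by
  have hmem : ⌊(0.3811 : ℝ) * (n * (n + 1) * (2 * n + 1) / 6)⌋₊ + 1 ∈
      {m : ℕ | ∀ H : Finset (Finset (Fin n)), (∀ e ∈ H, e.card = 3) → H.card = m →
        ∃ S : Finset (Fin n), S.card = 5 ∧ powersetCard 3 S ⊆ H} := by
    intro H h3 hc
    by_contra hcon
    push Not at hcon
    have h1 := Pool.Agent.TKS.edges_le Pool.Agent.TKS.seven n (Fin n) H (Fintype.card_fin n) h3 hcon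
    have h2 : (120000 * (H.card : ℝ)) ≤ 7622 * (n * (n + 1) * (2 * n + 1)) := by exact_mod_cast h1
    have h3' : (H.card : ℝ) ≤ 0.3811 * (n * (n + 1) * (2 * n + 1) / 6) := by linarith
    have h4 := Nat.lt_floor_add_one ((0.3811 : ℝ) * (n * (n + 1) * (2 * n + 1) / 6))
    rw [hc] at h3'
    push_cast at h3'
    linarith
  have h5 : f n ≤ ⌊(0.3811 : ℝ) * (n * (n + 1) * (2 * n + 1) / 6)⌋₊ + 1 := Nat.sInf_le hmem
  have h6 : ((⌊(0.3811 : ℝ) * (n * (n + 1) * (2 * n + 1) / 6)⌋₊ : ℕ) : ℝ) ≤ 0.3811 * (n * (n + 1) * (2 * n + 1) / 6) :=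
    Nat.floor_le (by positivity)
  have h7 : (f n : ℝ) ≤ ((⌊(0.3811 : ℝ) * (n * (n + 1) * (2 * n + 1) / 6)⌋₊ + 1 : ℕ) : ℝ) := by exact_mod_cast h5
  push_cast at h7
  linarith

/-- Every `K_3(5)`-free 3-graph on `n ≥ 1` vertices has a vertex of degree less than `0.3811 n²`; it has at most
`0.3811 · n(n+1)(2n+1)/6` edges; and the limit of `f(n,3,5)/n³` is at most `0.7622/6`. -/
theorem result :
    (∀ (n : ℕ) (H : Finset (Finset (Fin n))), (∀ e ∈ H, e.card = 3) →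
      (∀ S : Finset (Fin n), S.card = 5 → ¬ powersetCard 3 S ⊆ H) →
        (0 < n → ∃ v : Fin n, ((H.filter (fun e => v ∈ e)).card : ℝ) < 0.3811 * (n : ℝ) ^ 2) ∧
        (H.card : ℝ) ≤ 0.3811 * ((n : ℝ) * (n + 1) * (2 * n + 1) / 6)) ∧
    (∀ δ : ℝ, Tendsto (fun n : ℕ => (f n : ℝ) / (n : ℝ) ^ 3) atTop (𝓝 δ) → δ ≤ 0.7622 / 6) := by
  refine ⟨fun n H h3 h5 => ⟨fun hn => ?_, ?_⟩, ?_⟩
  · have : Nonempty (Fin n) := ⟨⟨0, hn⟩⟩
    obtain ⟨v, hv⟩ := Pool.Agent.TKS.exists_small_deg H Pool.Agent.TKS.seven h3 h5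
    refine ⟨v, ?_⟩
    rw [Fintype.card_fin] at hv
    have h2 : (20000 * ((H.filter (fun e => v ∈ e)).card : ℝ)) < 7622 * (n : ℝ) ^ 2 := by exact_mod_cast hv
    linarith
  · have h1 := Pool.Agent.TKS.edges_le Pool.Agent.TKS.seven n (Fin n) H (Fintype.card_fin n) h3 h5
    have h2 : (120000 * (H.card : ℝ)) ≤ 7622 * (n * (n + 1) * (2 * n + 1)) := by exact_mod_cast h1
    linarith
  · intro δ hδ
    have h1 : Tendsto (fun n : ℕ => (0.3811 : ℝ) / 6 * ((1 + 1 / (n : ℝ)) * (2 + 1 / (n : ℝ))) + (1 / (n : ℝ)) ^ 3)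
        atTop (𝓝 ((0.3811 : ℝ) / 6 * ((1 + 0) * (2 + 0)) + 0 ^ 3)) := by
      have h0 : Tendsto (fun n : ℕ => 1 / (n : ℝ)) atTop (𝓝 0) := tendsto_one_div_atTop_nhds_zero_nat
      exact ((((h0.const_add 1).mul (h0.const_add 2)).const_mul _).add (h0.pow 3))
    have h2 : (0.3811 : ℝ) / 6 * ((1 + 0) * (2 + 0)) + 0 ^ 3 = 0.7622 / 6 := by norm_num
    rw [h2] at h1
    refine le_of_tendsto_of_tendsto hδ h1 ?_
    filter_upwards [eventually_gt_atTop 0] with n hn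
    have hn' : (0 : ℝ) < n := by exact_mod_cast hn
    rw [div_le_iff₀ (by positivity)]
    have h3 := f_le n
    have h4 : ((0.3811 : ℝ) / 6 * ((1 + 1 / (n : ℝ)) * (2 + 1 / (n : ℝ))) + (1 / (n : ℝ)) ^ 3) * (n : ℝ) ^ 3 =
        0.3811 * (n * (n + 1) * (2 * n + 1) / 6) + 1 := by
      field_simp
    rw [h4]
    exact h3

end Pool.Agent.Results.MP_555f9b_co.DensityBound
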