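import Pool.Agent.T35L.Final2

/-!
# Turán's (3,5) bound near Turán's construction, with one exceptional vertex
-/

namespace Pool.Agent.Results.MP_555f9b_co.ExceptionalVertex

open Finset

/-- Let `H` be a `K_3(5)`-free 3-graph on `N` vertices, `v` a vertex and `A`, `B` a partition of the other vertices with
`|B| ≤ |A|`. Let `s, t ≥ 0` and `c = (s + t + 1/2)² / 2`. Suppose that, if `B` contains an edge, every vertex of `B` lies in
at most `s(|A| - 3) - c` edges contained in `B`, and `s` times the number of edges contained in `B` through any two vertices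
of `B` is at most `s(|A| - 3) - c`; and the same for `A`, with `t(|B| - 3) - c`. Then `H` has at most `|A|(|B|+1)(N-2)/2`
edges; for `N = 2n` this is at most `n²(n-1)`. -/
theorem result (N : ℕ) (H : Finset (Finset (Fin N))) (h3 : ∀ e ∈ H, e.card = 3)
    (h5 : ∀ S : Finset (Fin N), S.card = 5 → ¬ powersetCard 3 S ⊆ H)
    (v : Fin N) (A B : Finset (Fin N)) (hU : A ∪ B = univ.erase v) (hAB : Disjoint A B) (hle : B.card ≤ A.card)
    (s t c : ℝ) (hs : 0 ≤ s) (ht : 0 ≤ t) (hc : c = (s + t + 1 / 2) ^ 2 / 2)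
    (hB : (∃ e ∈ H, e ⊆ B) →
      (∀ y ∈ B, ((H.filter (fun e => y ∈ e ∧ e ⊆ B)).card : ℝ) ≤ s * (A.card - 3) - c) ∧
      ∀ f : Finset (Fin N), f ⊆ B → f.card = 2 →
        s * ((H.filter (fun e => f ⊆ e ∧ e ⊆ B)).card : ℝ) ≤ s * (A.card - 3) - c)
    (hA : (∃ e ∈ H, e ⊆ A) →
      (∀ x ∈ A, ((H.filter (fun e => x ∈ e ∧ e ⊆ A)).card : ℝ) ≤ t * (B.card - 3) - c) ∧
      ∀ f : Finset (Fin N), f ⊆ A → f.card = 2 →
        t * ((H.filter (fun e => f ⊆ e ∧ e ⊆ A)).card : ℝ) ≤ t * (B.card - 3) - c) :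
    (H.card : ℝ) ≤ A.card * (B.card + 1) * (N - 2) / 2 ∧ ∀ n : ℕ, N = 2 * n → H.card ≤ n ^ 2 * (n - 1) := by
  have hconv : ∀ (C f : Finset (Fin N)), Pool.Agent.T35L.cd H C f = (H.filter (fun e => f ⊆ e ∧ e ⊆ C)).card := by
    intro C f
    rw [Pool.Agent.T35L.cd]
    congr 1
    ext e
    rw [mem_filter, Pool.Agent.T35L.mem_TT, mem_filter]
    exact ⟨fun h => ⟨h.1.2, h.2, h.1.1.1⟩, fun h => ⟨⟨⟨h.2.2, h3 e h.1⟩, h.1⟩, h.2.1⟩⟩
  have hconv1 : ∀ (C : Finset (Fin N)) (y : Fin N), Pool.Agent.T35L.cd H C {y} =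
      (H.filter (fun e => y ∈ e ∧ e ⊆ C)).card := by
    intro C y
    rw [hconv]
    simp only [singleton_subset_iff]
  have hne : ∀ C : Finset (Fin N), (Pool.Agent.T35L.TT H C).Nonempty → ∃ e ∈ H, e ⊆ C := by
    rintro C ⟨e, he⟩
    rw [Pool.Agent.T35L.mem_TT] at he
    exact ⟨e, he.2, he.1.1⟩
  have h1 := Pool.Agent.T35L.bound2 H h3 h5 v A B hU hAB hle s t c hs ht hc.ge
    (fun h => by
      obtain ⟨h6, h7⟩ := hB (hne B h)
      refine ⟨fun y hy => ?_, fun f hf => ?_⟩
      · rw [hconv1]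
        exact h6 y hy
      · rw [mem_powersetCard] at hf
        rw [hconv]
        exact h7 f hf.1 hf.2)
    (fun h => by
      obtain ⟨h6, h7⟩ := hA (hne A h)
      refine ⟨fun y hy => ?_, fun f hf => ?_⟩
      · rw [hconv1]
        exact h6 y hy
      · rw [mem_powersetCard] at hf
        rw [hconv]
        exact h7 f hf.1 hf.2)
  have hN : A.card + B.card + 1 = N := by
    have h2 := card_union_of_disjoint hAB
    rw [hU, card_erase_of_mem (mem_univ v), card_univ, Fintype.card_fin] at h2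
    have h4 : 0 < N := v.pos
    omega
  have hNz : (A.card : ℤ) + B.card + 1 = N := by exact_mod_cast hN
  have h1' : 2 * (H.card : ℤ) ≤ A.card * (B.card + 1) * (N - 2) := by
    rw [← hNz]
    convert h1 using 2
    ring
  constructor
  · have h2 : 2 * (H.card : ℝ) ≤ A.card * (B.card + 1) * (N - 2) := by exact_mod_cast h1'
    linarith
  · intro n hn
    have hn1 : 1 ≤ n := by
      have := v.pos
      omega
    have hn2 : (A.card : ℤ) + (B.card + 1) = 2 * n := by
      have : A.card + (B.card + 1) = 2 * n := by omega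
      exact_mod_cast this
    have h2 : (A.card : ℤ) * (B.card + 1) ≤ n ^ 2 := by nlinarith [sq_nonneg ((A.card : ℤ) - (B.card + 1))]
    have hn3 : (0 : ℤ) ≤ 2 * (n : ℤ) - 2 := by
      have : (1 : ℤ) ≤ n := by exact_mod_cast hn1
      linarith
    have h4 : 2 * (H.card : ℤ) ≤ n ^ 2 * (2 * n - 2) := by
      have hnz : (N : ℤ) = 2 * n := by exact_mod_cast hn
      rw [hnz] at h1'
      exact h1'.trans (mul_le_mul_of_nonneg_right h2 hn3)
    have h6 : (H.card : ℤ) ≤ n ^ 2 * (n - 1) := by linarith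
    have h7 : ((n ^ 2 * (n - 1) : ℕ) : ℤ) = (n : ℤ) ^ 2 * (n - 1) := by
      push_cast [Nat.cast_sub hn1]
      ring
    rw [← h7] at h6
    exact_mod_cast h6

end Pool.Agent.Results.MP_555f9b_co.ExceptionalVertex
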