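import Pool.Agent.TK5.Final

/-!
# Turán's (3,5) conjecture with an error term: the number of 5-sets spanning exactly 8 edges
-/

namespace Pool.Agent.Results.MP_555f9b_co.NoEightEdges

open Finset

/-- Let `n ≥ 3` and let `H` be a `K_3(5)`-free 3-graph on `2n` vertices, and let `x` be the number of 5-sets of vertices
that span exactly 8 edges.  Then `3 (n-2) (2n-3) (|H| - n²(n-1)) ≤ 25 x`, with equality exactly for Turán's construction. -/
theorem result (n : ℕ) (hn : 3 ≤ n) (H : Finset (Finset (Fin (2 * n)))) (hH : ∀ e ∈ H, e.card = 3)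
    (hK : ∀ S : Finset (Fin (2 * n)), S.card = 5 → ¬ powersetCard 3 S ⊆ H) :
    3 * ((n : ℤ) - 2) * (2 * n - 3) * ((H.card : ℤ) - (n : ℤ) ^ 2 * (n - 1)) ≤
      25 * ((univ.filter (fun S : Finset (Fin (2 * n)) => S.card = 5 ∧ (powersetCard 3 S ∩ H).card = 8)).card : ℤ) ∧
    (3 * ((n : ℤ) - 2) * (2 * n - 3) * ((H.card : ℤ) - (n : ℤ) ^ 2 * (n - 1)) =
      25 * ((univ.filter (fun S : Finset (Fin (2 * n)) => S.card = 5 ∧ (powersetCard 3 S ∩ H).card = 8)).card : ℤ) ↔
      ∃ A : Finset (Fin (2 * n)), A.card = n ∧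
        H = (powersetCard 3 (univ : Finset (Fin (2 * n)))).filter (fun t => ¬ t ⊆ A ∧ ¬ Disjoint t A)) :=
  Pool.Agent.TK5.final n hn H hH hK

end Pool.Agent.Results.MP_555f9b_co.NoEightEdges
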