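import Pool.Agent.T35.Fin

/-!
# Turán's (3,5) conjecture for 3-graphs without four vertices spanning exactly two edges
-/

namespace Pool.Agent.Results.MP_555f9b_co.NoTwoEdges

open Finset Pool.Agent.T35

section

variable {V : Type*} [Fintype V] [DecidableEq V]

/-- the non-edges -/
def nonE (H : Finset (Finset V)) : Finset (Finset V) := powersetCard 3 (univ : Finset V) \ H

lemma nonE_card3 (H : Finset (Finset V)) : ∀ A ∈ nonE H, A.card = 3 := fun _ hA =>
  (mem_powersetCard.1 (mem_sdiff.1 hA).1).2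

/-- the non-edges as a Boolean function -/
def tH (H : Finset (Finset V)) (x y z : V) : Bool := decide (({x, y, z} : Finset V) ∈ nonE H)

lemma tH_iff {H : Finset (Finset V)} {x y z : V} :
    tH H x y z = true ↔ ({x, y, z} : Finset V) ∈ nonE H := by
  unfold tH
  exact decide_eq_true_iff

lemma nn_tH {H : Finset (Finset V)} {x y z : V} (hxy : x ≠ y) (hxz : x ≠ z) (hyz : y ≠ z) :
    nn (tH H x y z) + (if ({x, y, z} : Finset V) ∈ H then 1 else 0) = 1 := by
  have h1 : ({x, y, z} : Finset V) ∈ nonE H ↔ ({x, y, z} : Finset V) ∉ H := by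
    rw [nonE, mem_sdiff, mem_powersetCard]
    exact ⟨fun h => h.2, fun h => ⟨⟨subset_univ _, card_eq_three.2 ⟨x, y, z, hxy, hxz, hyz, rfl⟩⟩, h⟩⟩
  unfold tH nn
  by_cases h : ({x, y, z} : Finset V) ∈ H
  · have h2 : ({x, y, z} : Finset V) ∉ nonE H := fun h' => h1.1 h' h
    simp [h, h2]
  · have h2 : ({x, y, z} : Finset V) ∈ nonE H := h1.2 h
    simp [h, h2]

omit [Fintype V] in
lemma pc4 {w x y z : V} (hwx : w ≠ x) (hwy : w ≠ y) (hwz : w ≠ z) (hxy : x ≠ y) (hxz : x ≠ z)
    (hyz : y ≠ z) : powersetCard 3 ({w, x, y, z} : Finset V) =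
      {{w, x, y}, {w, x, z}, {w, y, z}, {x, y, z}} := by
  have hQ : ({w, x, y, z} : Finset V).card = 4 := by
    rw [card_insert_of_notMem (by simp [hwx, hwy, hwz]), card_eq_three.2 ⟨x, y, z, hxy, hxz, hyz, rfl⟩]
  ext e
  rw [mem_powersetCard]
  simp only [mem_insert, mem_singleton]
  constructor
  · rintro ⟨h1, h2⟩
    have h3 : (({w, x, y, z} : Finset V) \ e).card = 1 := by
      rw [card_sdiff_of_subset h1, hQ, h2]
    obtain ⟨v, hv⟩ := card_eq_one.1 h3
    have h4 : e = ({w, x, y, z} : Finset V).erase v := by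
      rw [erase_eq, ← hv, Finset.sdiff_sdiff_eq_self h1]
    have h5 : v ∈ ({w, x, y, z} : Finset V) := by
      have : v ∈ ({w, x, y, z} : Finset V) \ e := by rw [hv]; simp
      exact (mem_sdiff.1 this).1
    simp only [mem_insert, mem_singleton] at h5
    rw [h4]
    rcases h5 with rfl | rfl | rfl | rfl
    · right; right; right
      ext u; simp only [mem_erase, mem_insert, mem_singleton]; grind
    · right; right; left
      ext u; simp only [mem_erase, mem_insert, mem_singleton]; grind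
    · right; left
      ext u; simp only [mem_erase, mem_insert, mem_singleton]; grind
    · left
      ext u; simp only [mem_erase, mem_insert, mem_singleton]; grind
  · rintro (rfl | rfl | rfl | rfl)
    · exact ⟨by intro u; simp only [mem_insert, mem_singleton]; tauto,
        card_eq_three.2 ⟨w, x, y, hwx, hwy, hxy, rfl⟩⟩
    · exact ⟨by intro u; simp only [mem_insert, mem_singleton]; tauto,
        card_eq_three.2 ⟨w, x, z, hwx, hwz, hxz, rfl⟩⟩
    · exact ⟨by intro u; simp only [mem_insert, mem_singleton]; tauto,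
        card_eq_three.2 ⟨w, y, z, hwy, hwz, hyz, rfl⟩⟩
    · exact ⟨by intro u; simp only [mem_insert, mem_singleton]; tauto,
        card_eq_three.2 ⟨x, y, z, hxy, hxz, hyz, rfl⟩⟩

lemma count4 {H : Finset (Finset V)} (h3 : ∀ e ∈ H, e.card = 3) {w x y z : V} (hwx : w ≠ x)
    (hwy : w ≠ y) (hwz : w ≠ z) (hxy : x ≠ y) (hxz : x ≠ z) (hyz : y ≠ z) :
    (H.filter (fun e => e ⊆ ({w, x, y, z} : Finset V))).card + (nn (tH H w x y) +
      nn (tH H w x z) + nn (tH H w y z) + nn (tH H x y z)) = 4 := by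
  have h1 : H.filter (fun e => e ⊆ ({w, x, y, z} : Finset V)) =
      (powersetCard 3 ({w, x, y, z} : Finset V)).filter (fun e => e ∈ H) := by
    ext e
    simp only [mem_filter, mem_powersetCard]
    exact ⟨fun h => ⟨⟨h.2, h3 e h.1⟩, h.1⟩, fun h => ⟨h.2, h.1.1⟩⟩
  have n1 : ({w, x, y} : Finset V) ∉ ({{w, x, z}, {w, y, z}, {x, y, z}} : Finset (Finset V)) := by
    simp only [mem_insert, mem_singleton, not_or]
    refine ⟨fun h => ?_, fun h => ?_, fun h => ?_⟩
    · have : y ∈ ({w, x, z} : Finset V) := by rw [← h]; simp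
      simp only [mem_insert, mem_singleton] at this; grind
    · have : x ∈ ({w, y, z} : Finset V) := by rw [← h]; simp
      simp only [mem_insert, mem_singleton] at this; grind
    · have : w ∈ ({x, y, z} : Finset V) := by rw [← h]; simp
      simp only [mem_insert, mem_singleton] at this; grind
  have n2 : ({w, x, z} : Finset V) ∉ ({{w, y, z}, {x, y, z}} : Finset (Finset V)) := by
    simp only [mem_insert, mem_singleton, not_or]
    refine ⟨fun h => ?_, fun h => ?_⟩
    · have : x ∈ ({w, y, z} : Finset V) := by rw [← h]; simp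
      simp only [mem_insert, mem_singleton] at this; grind
    · have : w ∈ ({x, y, z} : Finset V) := by rw [← h]; simp
      simp only [mem_insert, mem_singleton] at this; grind
  have n3 : ({w, y, z} : Finset V) ∉ ({{x, y, z}} : Finset (Finset V)) := by
    simp only [mem_singleton]
    intro h
    have : w ∈ ({x, y, z} : Finset V) := by rw [← h]; simp
    simp only [mem_insert, mem_singleton] at this; grind
  rw [h1, card_filter, pc4 hwx hwy hwz hxy hxz hyz, sum_insert n1, sum_insert n2, sum_insert n3,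
    sum_singleton]
  have e1 := nn_tH (H := H) hwx hwy hxy
  have e2 := nn_tH (H := H) hwx hwz hxz
  have e3 := nn_tH (H := H) hwy hwz hyz
  have e4 := nn_tH (H := H) hxy hxz hyz
  omega

lemma f4_of : ∀ a b c d : Bool, nn a + nn b + nn c + nn d ≠ 2 → f4 a b c d = true := by
  intro a b c d
  cases a <;> cases b <;> cases c <;> cases d <;> decide

lemma tH_s1 (H : Finset (Finset V)) (x y z : V) : tH H x y z = tH H y x z := by
  unfold tH
  rw [insert_comm]

lemma tH_s2 (H : Finset (Finset V)) (x y z : V) : tH H x y z = tH H x z y := by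
  unfold tH
  rw [show ({y, z} : Finset V) = {z, y} from pair_comm y z]

lemma tH_dg (H : Finset (Finset V)) (x z : V) : tH H x x z = false := by
  unfold tH
  rw [decide_eq_false_iff_not]
  intro h
  have h1 := nonE_card3 H _ h
  rw [insert_eq_of_mem (mem_insert_self x _)] at h1
  have : ({x, z} : Finset V).card ≤ 2 := card_le_two
  omega

lemma tH_perm {H : Finset (Finset V)} {a b c : V} (h1 : tH H a b c = true) :
    tH H a c b = true ∧ tH H b a c = true ∧ tH H b c a = true ∧ tH H c a b = true ∧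
      tH H c b a = true := by
  have e1 : tH H a c b = true := by rw [← tH_s2]; exact h1
  have e2 : tH H b a c = true := by rw [← tH_s1]; exact h1
  have e3 : tH H b c a = true := by rw [← tH_s2]; exact e2
  have e4 : tH H c a b = true := by rw [← tH_s1]; exact e1
  have e5 : tH H c b a = true := by rw [← tH_s2]; exact e4
  exact ⟨e1, e2, e3, e4, e5⟩

lemma tH_five {H : Finset (Finset V)}
    (hK : ∀ S : Finset V, S.card = 5 → ¬ powersetCard 3 S ⊆ H) {a b c d e : V}
    (hab : a ≠ b) (hac : a ≠ c) (had : a ≠ d) (hae : a ≠ e) (hbc : b ≠ c) (hbd : b ≠ d)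
    (hbe : b ≠ e) (hcd : c ≠ d) (hce : c ≠ e) (hde : d ≠ e) :
    (tH H a b c || tH H a b d || tH H a b e || tH H a c d || tH H a c e || tH H a d e ||
      tH H b c d || tH H b c e || tH H b d e || tH H c d e) = true := by
  have hF : ({a, b, c, d, e} : Finset V).card = 5 := by
    rw [card_insert_of_notMem (by simp [hab, hac, had, hae]),
      card_insert_of_notMem (by simp [hbc, hbd, hbe]),
      card_eq_three.2 ⟨c, d, e, hcd, hce, hde, rfl⟩]
  have h := hK _ hF
  rw [not_subset] at h
  obtain ⟨A, hA, hAH⟩ := h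
  rw [mem_powersetCard] at hA
  obtain ⟨x, y, z, hxy, hxz, hyz, rfl⟩ := card_eq_three.1 hA.2
  have hx := hA.1 (show x ∈ ({x, y, z} : Finset V) by simp)
  have hy := hA.1 (show y ∈ ({x, y, z} : Finset V) by simp)
  have hz := hA.1 (show z ∈ ({x, y, z} : Finset V) by simp)
  have t0 : tH H x y z = true := by
    rw [tH_iff, nonE, mem_sdiff, mem_powersetCard]
    exact ⟨⟨subset_univ _, hA.2⟩, hAH⟩
  obtain ⟨t1, t2, t3, t4, t5⟩ := tH_perm t0
  simp only [mem_insert, mem_singleton] at hx hy hz
  clear hA hAH hF hK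
  simp only [Bool.or_eq_true]
  rcases hx with rfl | rfl | rfl | rfl | rfl <;> rcases hy with rfl | rfl | rfl | rfl | rfl <;>
    first
    | exact absurd rfl hxy
    | (rcases hz with rfl | rfl | rfl | rfl | rfl <;>
        first
        | exact absurd rfl hxz
        | exact absurd rfl hyz
        | (simp only [t0, t1, t2, t3, t4, t5, true_or, or_true]))

lemma sys {H : Finset (Finset V)} (h3 : ∀ e ∈ H, e.card = 3)
    (hQ : ∀ Q : Finset V, Q.card = 4 → (H.filter (fun e => e ⊆ Q)).card ≠ 2)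
    (hK : ∀ S : Finset V, S.card = 5 → ¬ powersetCard 3 S ⊆ H) : Sys (tH H) where
  s1 := tH_s1 H
  s2 := tH_s2 H
  dg := tH_dg H
  four w x y z hwx hwy hwz hxy hxz hyz := by
    apply f4_of
    have h1 := count4 h3 hwx hwy hwz hxy hxz hyz
    have h2 := hQ {w, x, y, z} (by
      rw [card_insert_of_notMem (by simp [hwx, hwy, hwz]),
        card_eq_three.2 ⟨x, y, z, hxy, hxz, hyz, rfl⟩])
    omega
  five a b c d e h1 h2 h3 h4 h5 h6 h7 h8 h9 h10 := tH_five hK h1 h2 h3 h4 h5 h6 h7 h8 h9 h10

/-- triples meeting both sides -/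
def bip (A : Finset V) : Finset (Finset V) :=
  powersetCard 3 (univ : Finset V) \ (powersetCard 3 A ∪ powersetCard 3 (univ \ A))

lemma bip_four (A Q : Finset V) (hQ : Q.card = 4) : ((bip A).filter (fun e => e ⊆ Q)).card ≠ 2 := by
  have h1 : (bip A).filter (fun e => e ⊆ Q)
      = powersetCard 3 Q \ (powersetCard 3 (Q ∩ A) ∪ powersetCard 3 (Q \ A)) := by
    ext e
    simp only [bip, mem_filter, mem_sdiff, mem_union, mem_powersetCard, subset_univ, true_and]
    constructor
    · rintro ⟨⟨h1, h2⟩, h3⟩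
      refine ⟨⟨h3, h1⟩, fun h => h2 ?_⟩
      rcases h with h | h
      · exact Or.inl ⟨h.1.trans inter_subset_right, h.2⟩
      · refine Or.inr ⟨fun x hx => mem_sdiff.2 ⟨mem_univ _, (mem_sdiff.1 (h.1 hx)).2⟩, h.2⟩
    · rintro ⟨⟨h3, h1⟩, h2⟩
      refine ⟨⟨h1, fun h => h2 ?_⟩, h3⟩
      rcases h with h | h
      · exact Or.inl ⟨subset_inter h3 h.1, h.2⟩
      · refine Or.inr ⟨fun x hx => mem_sdiff.2 ⟨h3 hx, (mem_sdiff.1 (h.1 hx)).2⟩, h.2⟩
  have h2 : Disjoint (powersetCard 3 (Q ∩ A)) (powersetCard 3 (Q \ A)) := by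
    rw [Finset.disjoint_left]
    intro e he he'
    rw [mem_powersetCard] at he he'
    obtain ⟨x, hx⟩ : e.Nonempty := by rw [← card_pos, he.2]; norm_num
    exact (mem_sdiff.1 (he'.1 hx)).2 (mem_inter.1 (he.1 hx)).2
  have h3 : powersetCard 3 (Q ∩ A) ∪ powersetCard 3 (Q \ A) ⊆ powersetCard 3 Q :=
    union_subset (powersetCard_mono inter_subset_left) (powersetCard_mono sdiff_subset)
  have h4 : (Q ∩ A).card + (Q \ A).card = 4 := by
    rw [← hQ]; exact card_inter_add_card_sdiff Q A
  rw [h1, card_sdiff_of_subset h3, card_union_of_disjoint h2, card_powersetCard,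
    card_powersetCard, card_powersetCard, hQ]
  have h5 : (Q \ A).card = 4 - (Q ∩ A).card := by omega
  have h6 : (Q ∩ A).card ≤ 4 := by omega
  rw [h5]
  generalize (Q ∩ A).card = j at h6
  interval_cases j <;> norm_num [Nat.choose]

lemma bip_free (A S : Finset V) (hS : S.card = 5) : ¬ powersetCard 3 S ⊆ bip A := by
  intro h
  have h4 : (S ∩ A).card + (S \ A).card = 5 := by
    rw [← hS]; exact card_inter_add_card_sdiff S A
  rcases (by omega : 3 ≤ (S ∩ A).card ∨ 3 ≤ (S \ A).card) with h5 | h5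
  · obtain ⟨e, he, he3⟩ := exists_subset_card_eq h5
    have h6 := h (mem_powersetCard.2 ⟨he.trans inter_subset_left, he3⟩)
    rw [bip, mem_sdiff] at h6
    exact h6.2 (mem_union_left _ (mem_powersetCard.2 ⟨he.trans inter_subset_right, he3⟩))
  · obtain ⟨e, he, he3⟩ := exists_subset_card_eq h5
    have h6 := h (mem_powersetCard.2 ⟨he.trans sdiff_subset, he3⟩)
    rw [bip, mem_sdiff] at h6
    refine h6.2 (mem_union_right _ (mem_powersetCard.2 ⟨fun x hx => ?_, he3⟩))
    exact mem_sdiff.2 ⟨mem_univ _, (mem_sdiff.1 (he hx)).2⟩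

lemma card_identity (n : ℕ) : (2 * n).choose 3 = n ^ 2 * (n - 1) + 2 * n.choose 3 := by
  rcases n with _ | n
  · rfl
  have h1 := six_choose (2 * (n + 1))
  have h2 := six_choose (n + 1)
  have h3 : ((2 * (n + 1)).choose 3 : ℤ) = ((n + 1 : ℕ) : ℤ) ^ 2 * n + 2 * ((n + 1).choose 3 : ℤ) := by
    push_cast at h1 h2 ⊢
    nlinarith
  have h4 : n + 1 - 1 = n := rfl
  rw [h4]
  exact_mod_cast h3

lemma bip_card (A : Finset V) {n : ℕ} (hA : A.card = n) (hV : Fintype.card V = 2 * n) :
    (bip A).card = n ^ 2 * (n - 1) := by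
  have h2 : Disjoint (powersetCard 3 A) (powersetCard 3 (univ \ A)) := by
    rw [Finset.disjoint_left]
    intro e he he'
    rw [mem_powersetCard] at he he'
    obtain ⟨x, hx⟩ : e.Nonempty := by rw [← card_pos, he.2]; norm_num
    exact (mem_sdiff.1 (he'.1 hx)).2 (he.1 hx)
  have h3 : powersetCard 3 A ∪ powersetCard 3 (univ \ A) ⊆ powersetCard 3 (univ : Finset V) :=
    union_subset (powersetCard_mono (subset_univ _)) (powersetCard_mono (subset_univ _))
  have h4 : (univ \ A : Finset V).card = n := by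
    rw [card_sdiff_of_subset (subset_univ A), card_univ, hV, hA]
    omega
  rw [bip, card_sdiff_of_subset h3, card_union_of_disjoint h2, card_powersetCard,
    card_powersetCard, card_powersetCard, card_univ, hV, hA, h4, card_identity]
  omega

lemma card_nonE {H : Finset (Finset V)} (h3 : ∀ e ∈ H, e.card = 3) {n : ℕ}
    (hV : Fintype.card V = 2 * n) :
    (nonE H).card + H.card = n ^ 2 * (n - 1) + 2 * n.choose 3 := by
  have h2 : H ⊆ powersetCard 3 (univ : Finset V) := fun e he =>
    mem_powersetCard.2 ⟨subset_univ _, h3 e he⟩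
  have h4 := card_sdiff_add_card_eq_card h2
  rw [card_powersetCard, card_univ, hV, card_identity] at h4
  exact h4

/-- the ordered non-edges -/
lemma SS_eq {H : Finset (Finset V)} : SS (tH H) univ = 6 * ((nonE H).card : ℤ) := by
  rw [← six_card (nonE_card3 H)]
  unfold SS
  refine sum_congr rfl fun x _ => sum_congr rfl fun y _ => sum_congr rfl fun z _ => ?_
  by_cases h : ({x, y, z} : Finset V) ∈ nonE H
  · rw [if_pos h, tH_iff.2 h]
    rfl
  · rw [if_neg h, Bool.eq_false_iff.2 (fun h' => h (tH_iff.1 h'))]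
    rfl

lemma nt_tH {H : Finset (Finset V)} (hS : Sys (tH H)) : nt (tH H) = nonE H := by
  ext A
  constructor
  · intro hA
    obtain ⟨x, y, z, -, -, -, rfl⟩ := card_eq_three.1 (nt_card hA)
    exact tH_iff.1 ((mem_nt hS x y z).1 hA)
  · intro hA
    obtain ⟨x, y, z, -, -, -, rfl⟩ := card_eq_three.1 (nonE_card3 H A hA)
    exact (mem_nt hS x y z).2 (tH_iff.2 hA)

/-- extremal 3-graphs -/
lemma unique {H : Finset (Finset V)} (h3 : ∀ e ∈ H, e.card = 3)
    (hQ : ∀ Q : Finset V, Q.card = 4 → (H.filter (fun e => e ⊆ Q)).card ≠ 2)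
    (hK : ∀ S : Finset V, S.card = 5 → ¬ powersetCard 3 S ⊆ H) {n : ℕ} (hn : 7 ≤ n)
    (hV : Fintype.card V = 2 * n) (hc : H.card = n ^ 2 * (n - 1)) :
    ∃ A : Finset V, A.card = n ∧ H = bip A := by
  have hS := sys h3 hQ hK
  have h1 := card_nonE h3 hV
  have h2 : (nonE H).card = 2 * n.choose 3 := by omega
  have h4 : SS (tH H) univ = 12 * (n.choose 3 : ℤ) := by
    rw [SS_eq, h2]
    push_cast
    ring
  have hl : Lin (tH H) univ := by
    by_contra hl
    have h5 := step hS (W := univ) (n := n) (by rw [card_univ, hV]) hl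
      (fun m _ U hU => bound hS m U hU)
    rw [h4] at h5
    exact lt_irrefl _ h5
  have hTr : Tr (nonE H) := by
    rw [← nt_tH hS]
    exact nt_Tr hS hl
  have h5 : ∀ F : Finset V, F.card = 5 → ∃ A ∈ nonE H, A ⊆ F := by
    rw [← nt_tH hS]
    exact nt_five hS
  obtain ⟨K, hK1, hK2⟩ := T35.struct (nonE_card3 H) hTr h5 (by rw [hV]; omega)
  have hd : Disjoint (powersetCard 3 K) (powersetCard 3 (univ \ K)) := by
    rw [Finset.disjoint_left]
    intro e he he'
    rw [mem_powersetCard] at he he'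
    obtain ⟨x, hx⟩ : e.Nonempty := by rw [← card_pos, he.2]; norm_num
    exact (mem_sdiff.1 (he'.1 hx)).2 (he.1 hx)
  have hsub : powersetCard 3 K ∪ powersetCard 3 (univ \ K) ⊆ nonE H := union_subset hK1 hK2
  have hle := card_le_card hsub
  have hKc : (univ \ K : Finset V).card = 2 * n - K.card := by
    rw [card_sdiff_of_subset (subset_univ K), card_univ, hV]
  have hKle : K.card ≤ 2 * n := by
    rw [← hV]; exact card_le_univ K
  rw [card_union_of_disjoint hd, card_powersetCard, card_powersetCard, hKc, h2] at hle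
  have hKn : K.card = n := by
    have e1 := six_choose n
    have e2 := six_choose K.card
    have e3 := six_choose (2 * n - K.card)
    have e4 : ((2 * n - K.card : ℕ) : ℤ) = 2 * n - K.card := by
      rw [Nat.cast_sub hKle]; push_cast; ring
    rw [e4] at e3
    have e5 : ((K.card.choose 3 : ℤ) + ((2 * n - K.card).choose 3 : ℤ)) ≤ 2 * (n.choose 3 : ℤ) := by
      exact_mod_cast hle
    have e6 : (7 : ℤ) ≤ n := by exact_mod_cast hn
    have e7 : ((n : ℤ) - K.card) ^ 2 ≤ 0 := by
      by_contra hcon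
      push Not at hcon
      nlinarith
    have e8 : (n : ℤ) - K.card = 0 := by
      have := sq_nonneg ((n : ℤ) - K.card)
      have h0 : ((n : ℤ) - K.card) ^ 2 = 0 := le_antisymm e7 this
      exact pow_eq_zero_iff (two_ne_zero) |>.1 h0
    omega
  have heq : powersetCard 3 K ∪ powersetCard 3 (univ \ K) = nonE H := by
    apply eq_of_subset_of_card_le hsub
    rw [h2, card_union_of_disjoint hd, card_powersetCard, card_powersetCard, hKc, hKn,
      show 2 * n - n = n by omega]
    omega
  refine ⟨K, hKn, ?_⟩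
  rw [bip, heq, nonE, Finset.sdiff_sdiff_eq_self]
  exact fun e he => mem_powersetCard.2 ⟨subset_univ _, h3 e he⟩

end

/-- **Turán's (3,5) conjecture for 3-graphs in which no four vertices span exactly two edges**, with
the uniqueness of the extremal 3-graph on at least fourteen vertices. -/
theorem result :
    (∀ n : ℕ,
      (∀ H : Finset (Finset (Fin (2 * n))), (∀ e ∈ H, e.card = 3) →
        (∀ Q : Finset (Fin (2 * n)), Q.card = 4 → (H.filter (fun e => e ⊆ Q)).card ≠ 2) →
        n ^ 2 * (n - 1) < H.card →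
        ∃ S : Finset (Fin (2 * n)), S.card = 5 ∧ Finset.powersetCard 3 S ⊆ H) ∧
      (∃ H : Finset (Finset (Fin (2 * n))), (∀ e ∈ H, e.card = 3) ∧
        (∀ Q : Finset (Fin (2 * n)), Q.card = 4 → (H.filter (fun e => e ⊆ Q)).card ≠ 2) ∧
        H.card = n ^ 2 * (n - 1) ∧
        ∀ S : Finset (Fin (2 * n)), S.card = 5 → ¬ Finset.powersetCard 3 S ⊆ H)) ∧
    (∀ n : ℕ, 7 ≤ n → ∀ H : Finset (Finset (Fin (2 * n))), (∀ e ∈ H, e.card = 3) →
      (∀ Q : Finset (Fin (2 * n)), Q.card = 4 → (H.filter (fun e => e ⊆ Q)).card ≠ 2) →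
      (∀ S : Finset (Fin (2 * n)), S.card = 5 → ¬ Finset.powersetCard 3 S ⊆ H) →
      H.card = n ^ 2 * (n - 1) →
      ∃ A : Finset (Fin (2 * n)), A.card = n ∧
        ∀ e : Finset (Fin (2 * n)), e ∈ H ↔ e.card = 3 ∧ ¬ e ⊆ A ∧ ¬ e ⊆ Aᶜ) := by
  refine ⟨fun n => ⟨fun H h3 hQ hlt => ?_, ?_⟩, fun n hn H h3 hQ hK hc => ?_⟩
  · by_contra hcon
    push Not at hcon
    have hV : Fintype.card (Fin (2 * n)) = 2 * n := Fintype.card_fin _
    have h1 := bound (sys h3 hQ hcon) n univ (by rw [card_univ, hV])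
    rw [SS_eq] at h1
    have h2 := card_nonE h3 hV
    have h4 : 2 * n.choose 3 ≤ (nonE H).card := by
      have h5 : (2 * (n.choose 3 : ℤ)) ≤ ((nonE H).card : ℤ) := by linarith
      exact_mod_cast h5
    omega
  · set A : Finset (Fin (2 * n)) := univ.filter (fun i => (i : ℕ) < n) with hA
    have hAc : A.card = n := by
      rw [hA, Fin.card_filter_val_lt]
      omega
    refine ⟨bip A, fun e he => ?_, bip_four A, bip_card A hAc (Fintype.card_fin _), bip_free A⟩
    exact (mem_powersetCard.1 (mem_sdiff.1 he).1).2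
  · obtain ⟨A, hA, rfl⟩ := unique h3 hQ hK hn (Fintype.card_fin _) hc
    refine ⟨A, hA, fun e => ?_⟩
    rw [bip, mem_sdiff, mem_union, mem_powersetCard, mem_powersetCard, mem_powersetCard,
      compl_eq_univ_sdiff, not_or, not_and, not_and]
    constructor
    · rintro ⟨⟨-, h1⟩, h2, h4⟩
      exact ⟨h1, fun h => h2 h h1, fun h => h4 h h1⟩
    · rintro ⟨h1, h2, h4⟩
      exact ⟨⟨subset_univ _, h1⟩, fun h => absurd h h2, fun h => absurd h h4⟩

end Pool.Agent.Results.MP_555f9b_co.NoTwoEdges
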